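import Pool.Agent.W880.CT.Bern

/-! CT-ES: Efron-Stein inequality for biased bits (MP_6504f0_pr). -/

set_option autoImplicit false

namespace Pool.Agent.W880.CTES

open Pool.Agent.W823.CT Finset Pool.Agent.W880.CT

variable {E : Type} [Fintype E] [DecidableEq E]

/-- the influence of a coordinate -/
noncomputable def D (p : ℝ) (e : E) (f : (E → Bool) → ℝ) : ℝ :=
  ∑ ω, bnu p ω * (p * (1 - p) * (f (Function.update ω e true) - f (Function.update ω e false)) ^ 2)

theorem D_nonneg (p : ℝ) (hp0 : 0 < p) (hp1 : p < 1) (e : E) (f : (E → Bool) → ℝ) :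
    0 ≤ D p e f := by
  refine sum_nonneg fun ω _ => mul_nonneg (bnu_nonneg p hp0 hp1 ω) ?_
  have : 0 ≤ 1 - p := by linarith
  positivity

/-- variance identity for one coordinate -/
theorem var_one (p : ℝ) (e : E) (f : (E → Bool) → ℝ) :
    ∑ ω, bnu p ω * f ω ^ 2 - ∑ ω, bnu p ω * (Rf p e f ω) ^ 2 = D p e f := by
  rw [refresh p e (fun ω => f ω ^ 2), ← sum_sub_distrib]
  unfold D Rf
  refine sum_congr rfl fun ω _ => ?_
  ring

/-- refreshing a coordinate does not increase the influences -/
theorem D_Rf (p : ℝ) (hp0 : 0 < p) (hp1 : p < 1) (e e' : E) (f : (E → Bool) → ℝ) :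
    D p e' (Rf p e f) ≤ D p e' f := by
  by_cases h : e' = e
  · subst h
    have : D p e' (Rf p e' f) = 0 := by
      unfold D
      refine sum_eq_zero fun ω _ => ?_
      rw [Rf_update_self, Rf_update_self, sub_self]
      ring
    rw [this]
    exact D_nonneg p hp0 hp1 e' f
  · unfold D
    rw [refresh p e (fun ω => p * (1 - p) *
      (f (Function.update ω e' true) - f (Function.update ω e' false)) ^ 2)]
    refine sum_le_sum fun ω _ => mul_le_mul_of_nonneg_left ?_ (bnu_nonneg p hp0 hp1 ω)
    rw [Rf_update_ne p h, Rf_update_ne p h]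
    set x := f (Function.update (Function.update ω e true) e' true) -
      f (Function.update (Function.update ω e true) e' false)
    set y := f (Function.update (Function.update ω e false) e' true) -
      f (Function.update (Function.update ω e false) e' false)
    have e1 : p * f (Function.update (Function.update ω e true) e' true) +
          (1 - p) * f (Function.update (Function.update ω e false) e' true) -
        (p * f (Function.update (Function.update ω e true) e' false) +
          (1 - p) * f (Function.update (Function.update ω e false) e' false)) =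
        p * x + (1 - p) * y := by
      simp only [x, y]
      ring
    rw [e1]
    have h2 : 0 ≤ 1 - p := by linarith
    have h3 : (p * x + (1 - p) * y) ^ 2 ≤ p * x ^ 2 + (1 - p) * y ^ 2 := by
      have h4 : 0 ≤ p * (1 - p) * (x - y) ^ 2 := by positivity
      nlinarith
    have h4 : 0 ≤ p * (1 - p) := by positivity
    have h5 := mul_le_mul_of_nonneg_left h3 h4
    linarith

theorem step (p : ℝ) (hp0 : 0 < p) (hp1 : p < 1) (g : (E → Bool) → ℝ) (A : Finset E) :
    ∃ f : (E → Bool) → ℝ, ∑ ω, bnu p ω * f ω = ∑ ω, bnu p ω * g ω ∧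
      (∀ e ∈ A, ∀ (ω : E → Bool) (b : Bool), f (Function.update ω e b) = f ω) ∧
      (∀ e, D p e f ≤ D p e g) ∧
      ∑ ω, bnu p ω * g ω ^ 2 - ∑ ω, bnu p ω * f ω ^ 2 ≤ ∑ e ∈ A, D p e g := by
  induction A using Finset.induction_on with
  | empty => exact ⟨g, rfl, fun e he => absurd he (notMem_empty e), fun _ => le_rfl, by simp⟩
  | insert e A heA ih =>
    obtain ⟨f, h1, h2, h3, h4⟩ := ih
    refine ⟨Rf p e f, by rw [sum_Rf, h1], ?_, fun e' => (D_Rf p hp0 hp1 e e' f).trans (h3 e'), ?_⟩
    · intro e' he' ω b
      by_cases h : e' = e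
      · subst h
        exact Rf_update_self p e' f ω b
      · have he'' : e' ∈ A := (mem_insert.1 he').resolve_left h
        rw [Rf_update_ne p h, h2 e' he'', h2 e' he'']
        rfl
    · rw [sum_insert heA]
      have h5 := var_one p e f
      have h6 := h3 e
      linarith

theorem main : S_ES := by
  intro E _ _ p g hp0 hp1
  obtain ⟨f, h1, h2, -, h4⟩ := step p hp0 hp1 g univ
  have hc : ∀ ω, f ω = f (fun _ => false) := by
    intro ω
    have h5 := osc_all f 0 (fun e ω b => by rw [h2 e (mem_univ e) ω b]; simp) (fun _ => false) ω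
    rw [mul_zero] at h5
    exact sub_eq_zero.1 (abs_nonpos_iff.1 h5)
  set c := f (fun _ => false) with hcd
  have h5 : ∑ ω, bnu p ω * f ω = c := by
    simp_rw [hc]
    rw [← sum_mul, bnu_sum, one_mul]
  have h6 : ∑ ω, bnu p ω * f ω ^ 2 = c ^ 2 := by
    simp_rw [hc]
    rw [← sum_mul, bnu_sum, one_mul]
  rw [← h1, h5]
  rw [h6] at h4
  exact h4

end Pool.Agent.W880.CTES
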