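import Pool.Agent.W823.CT.Stm

/-! CT-HITN: L2 decay of the chain killed on a set (MP_6504f0_pr). -/

set_option autoImplicit false

namespace Pool.Agent.W880.CTHITN

open Pool.Agent.W823.CT Finset

/-- weighted Cauchy-Schwarz -/
theorem wcs {ι : Type} [Fintype ι] (w f g : ι → ℝ) (hw : ∀ i, 0 ≤ w i) :
    (∑ i, w i * f i * g i) ^ 2 ≤ (∑ i, w i * f i ^ 2) * ∑ i, w i * g i ^ 2 := by
  have h3 := sum_mul_sq_le_sq_mul_sq univ (fun i => √(w i) * f i) (fun i => √(w i) * g i)
  have e1 : ∀ i, √(w i) * f i * (√(w i) * g i) = w i * f i * g i := by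
    intro i
    have := Real.mul_self_sqrt (hw i)
    linear_combination (f i * g i) * this
  have e2 : ∀ f : ι → ℝ, ∀ i, (√(w i) * f i) ^ 2 = w i * f i ^ 2 := by
    intro f i
    rw [mul_pow, Real.sq_sqrt (hw i)]
  simp only [e1, e2] at h3
  exact h3

variable {V Ω : Type} [Fintype V] [Fintype Ω] (C : BC V Ω)

theorem ip_symm_P (f g : V × Ω → ℝ) : C.ip f (C.P g) = C.ip g (C.P f) := by
  unfold BC.ip BC.P
  simp_rw [mul_sum]
  rw [sum_comm]
  refine sum_congr rfl fun s _ => sum_congr rfl fun s' _ => ?_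
  have := C.K_symm s' s
  linear_combination (f s' * g s) * this

theorem ip_comb (f g : V × Ω → ℝ) (c : ℝ) :
    C.ip (fun s => f s + c * g s) (C.P (fun s => f s + c * g s)) =
      C.ip g (C.P g) * (c * c) + (2 * C.ip f (C.P g)) * c + C.ip f (C.P f) := by
  have h1 : C.P (fun s => f s + c * g s) = fun s => C.P f s + c * C.P g s := by
    funext s
    unfold BC.P
    rw [mul_sum, ← sum_add_distrib]
    refine sum_congr rfl fun s' _ => ?_
    ring
  rw [h1]
  have h2 : C.ip g (C.P f) = C.ip f (C.P g) := ip_symm_P C g f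
  have h3 : C.ip (fun s => f s + c * g s) (fun s => C.P f s + c * C.P g s) =
      C.ip f (C.P f) + c * C.ip f (C.P g) + c * C.ip g (C.P f) + c * c * C.ip g (C.P g) := by
    unfold BC.ip
    rw [mul_sum, mul_sum, mul_sum, ← sum_add_distrib, ← sum_add_distrib, ← sum_add_distrib]
    refine sum_congr rfl fun s _ => ?_
    ring
  rw [h3, h2]
  ring

theorem cs_P (hP : ∀ g, 0 ≤ C.ip g (C.P g)) (f g : V × Ω → ℝ) :
    (C.ip f (C.P g)) ^ 2 ≤ C.ip f (C.P f) * C.ip g (C.P g) := by
  have h1 : ∀ c : ℝ, 0 ≤ C.ip g (C.P g) * (c * c) + (2 * C.ip f (C.P g)) * c + C.ip f (C.P f) := by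
    intro c
    rw [← ip_comb]
    exact hP _
  have h2 := discrim_le_zero h1
  unfold discrim at h2
  linarith

theorem ip_self (f : V × Ω → ℝ) : C.ip f f = ∑ x, C.sq f x := by
  unfold BC.ip BC.sq
  rw [Fintype.sum_prod_type]
  refine sum_congr rfl fun x _ => sum_congr rfl fun ω _ => ?_
  ring

theorem ip_nonneg (f : V × Ω → ℝ) : 0 ≤ C.ip f f := by
  unfold BC.ip
  refine sum_nonneg fun s _ => ?_
  have := (C.ν_pos s.2).le
  have h2 := mul_self_nonneg (f s)
  nlinarith [mul_nonneg this h2]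

section kill

variable (B : V × Ω → Prop) [DecidablePred B]

theorem supp_iter (f : V × Ω → ℝ) (hf : ∀ s, ¬ B s → f s = 0) (j : ℕ) :
    ∀ s, ¬ B s → ((fun (f : V × Ω → ℝ) (s : V × Ω) => if B s then C.P f s else 0)^[j] f) s = 0 := by
  cases j with
  | zero => exact hf
  | succ j =>
    intro s hs
    rw [Function.iterate_succ_apply']
    exact if_neg hs

theorem ip_T (f g : V × Ω → ℝ) (hf : ∀ s, ¬ B s → f s = 0) :
    C.ip f (fun s => if B s then C.P g s else 0) = C.ip f (C.P g) := by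
  unfold BC.ip
  refine sum_congr rfl fun s _ => ?_
  beta_reduce
  by_cases h : B s
  · rw [if_pos h]
  · rw [hf s h]
    ring

theorem one_step {γ : ℝ} (hγ0 : 0 ≤ γ)
    (hD : ∀ g, γ * ∑ x, (C.sq g x - C.blk g x ^ 2) ≤ C.Dir g)
    (hB : ∀ x, C.blk (fun s => if B s then 1 else 0) x ≤ 1 / 4)
    (f : V × Ω → ℝ) (hf : ∀ s, ¬ B s → f s = 0) :
    C.ip f (C.P f) ≤ (1 - 3 / 4 * γ) * C.ip f f := by
  have h1 : ∀ x, C.blk f x ^ 2 ≤ C.sq f x * (1 / 4) := by
    intro x
    have h2 := wcs C.ν (fun ω => f (x, ω)) (fun ω => if B (x, ω) then (1 : ℝ) else 0)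
      (fun ω => (C.ν_pos ω).le)
    have e1 : ∑ ω, C.ν ω * f (x, ω) * (if B (x, ω) then (1 : ℝ) else 0) = C.blk f x := by
      unfold BC.blk
      refine sum_congr rfl fun ω _ => ?_
      by_cases h : B (x, ω)
      · rw [if_pos h, mul_one]
      · rw [hf _ h]; ring
    have e2 : ∑ ω, C.ν ω * (if B (x, ω) then (1 : ℝ) else 0) ^ 2 =
        C.blk (fun s => if B s then 1 else 0) x := by
      unfold BC.blk
      refine sum_congr rfl fun ω _ => ?_
      by_cases h : B (x, ω)
      · simp [h]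
      · simp [h]
    rw [e1, e2] at h2
    refine h2.trans ?_
    apply mul_le_mul_of_nonneg_left (hB x)
    exact sum_nonneg fun ω _ => mul_nonneg (C.ν_pos ω).le (sq_nonneg _)
  have h2 := hD f
  have h3 : 3 / 4 * C.ip f f ≤ ∑ x, (C.sq f x - C.blk f x ^ 2) := by
    rw [ip_self, mul_sum]
    refine sum_le_sum fun x _ => ?_
    linarith [h1 x]
  have h4 := mul_le_mul_of_nonneg_left h3 hγ0
  unfold BC.Dir at h2
  linarith

end kill

theorem main : S_HITN := by
  intro V Ω _ _ C γ B _ hγ0 hγ1 hP hD hB j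
  set q : ℝ := 1 - 3 / 4 * γ with hq
  have hq0 : 0 ≤ q := by rw [hq]; linarith
  set T : (V × Ω → ℝ) → V × Ω → ℝ := fun f s => if B s then C.P f s else 0 with hT
  have hstep : ∀ f : V × Ω → ℝ, (∀ s, ¬ B s → f s = 0) → C.ip (T f) (T f) ≤ q ^ 2 * C.ip f f := by
    intro f hf
    have hTf : ∀ s, ¬ B s → T f s = 0 := fun s hs => if_neg hs
    have e1 : C.ip (T f) (T f) = C.ip f (C.P (T f)) := by
      rw [ip_symm_P]
      exact ip_T C B (T f) f hTf
    have h1 := cs_P C hP f (T f)
    have h2 := one_step C B hγ0 hD hB f hf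
    have h3 := one_step C B hγ0 hD hB (T f) hTf
    rw [← e1] at h1
    have h4 := hP (T f)
    have h5 := hP f
    have h6 := ip_nonneg C f
    have h7 := ip_nonneg C (T f)
    have h8 : C.ip (T f) (T f) ^ 2 ≤ (q * C.ip f f) * (q * C.ip (T f) (T f)) :=
      h1.trans (mul_le_mul h2 h3 h4 (mul_nonneg hq0 h6))
    rcases h7.eq_or_lt with h9 | h9
    · rw [← h9]
      positivity
    · have h10 : C.ip (T f) (T f) * C.ip (T f) (T f) ≤ (q ^ 2 * C.ip f f) * C.ip (T f) (T f) := by
        linarith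
      exact le_of_mul_le_mul_right h10 h9
  have hiter : ∀ j : ℕ, C.ip (T^[j] (fun s => if B s then 1 else 0))
      (T^[j] (fun s => if B s then 1 else 0)) ≤
      (q ^ j) ^ 2 * C.ip (fun s => if B s then 1 else 0) (fun s => if B s then 1 else 0) := by
    intro j
    induction j with
    | zero => simp
    | succ j ih =>
      rw [Function.iterate_succ_apply']
      refine (hstep _ (supp_iter C B _ (fun s hs => if_neg hs) j)).trans ?_
      have := mul_le_mul_of_nonneg_left ih (sq_nonneg q)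
      refine this.trans (le_of_eq ?_)
      ring
  have hν1 : ∀ x : V, ∑ ω, C.ν ω = 1 := fun _ => C.ν_sum
  have hone : C.ip (fun _ => 1) (fun _ => 1) = Fintype.card V := by
    unfold BC.ip
    rw [Fintype.sum_prod_type]
    simp only [mul_one]
    rw [C.ν_sum]
    simp
  have hB1 : C.ip (fun s => if B s then 1 else 0) (fun s => if B s then 1 else 0) ≤
      Fintype.card V := by
    rw [← hone]
    unfold BC.ip
    refine sum_le_sum fun s _ => ?_
    have := (C.ν_pos s.2).le
    beta_reduce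
    split_ifs <;> simp [this]
  have hcs := wcs (fun s : V × Ω => C.ν s.2) (fun _ => 1)
    (T^[j] (fun s => if B s then 1 else 0)) (fun s => (C.ν_pos s.2).le)
  have e1 : ∑ s : V × Ω, C.ν s.2 * 1 * (T^[j] (fun s => if B s then 1 else 0)) s =
      ∑ x, C.blk (T^[j] (fun s => if B s then 1 else 0)) x := by
    unfold BC.blk
    rw [Fintype.sum_prod_type]
    simp only [mul_one]
  have e2 : ∑ s : V × Ω, C.ν s.2 * (1 : ℝ) ^ 2 = Fintype.card V := by
    rw [← hone]
    unfold BC.ip
    refine sum_congr rfl fun s _ => ?_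
    ring
  have e3 : ∑ s : V × Ω, C.ν s.2 * (T^[j] (fun s => if B s then 1 else 0)) s ^ 2 =
      C.ip (T^[j] (fun s => if B s then 1 else 0)) (T^[j] (fun s => if B s then 1 else 0)) := by
    unfold BC.ip
    refine sum_congr rfl fun s _ => ?_
    ring
  rw [e1, e2, e3] at hcs
  have hcard : (0 : ℝ) ≤ Fintype.card V := Nat.cast_nonneg _
  have h1 : (∑ x, C.blk (T^[j] (fun s => if B s then 1 else 0)) x) ^ 2 ≤
      (q ^ j * Fintype.card V) ^ 2 := by
    refine hcs.trans ?_
    have h2 : C.ip (T^[j] (fun s => if B s then 1 else 0)) (T^[j] (fun s => if B s then 1 else 0)) ≤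
        (q ^ j) ^ 2 * Fintype.card V :=
      (hiter j).trans (mul_le_mul_of_nonneg_left hB1 (sq_nonneg _))
    have := mul_le_mul_of_nonneg_left h2 hcard
    refine this.trans (le_of_eq ?_)
    ring
  exact (abs_le_of_sq_le_sq' h1 (by positivity)).2

end Pool.Agent.W880.CTHITN
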