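import Pool.Agent.W880.CT.Bern

/-! CT-MIX: mixing of the environment (MP_6504f0_pr). -/

set_option autoImplicit false

namespace Pool.Agent.W880.CTMIX

open Pool.Agent.W823.CT Finset Pool.Agent.W880.CT

variable {E : Type} [Fintype E] [DecidableEq E]

/-- one step of the environment chain -/
noncomputable def Q (p δ : ℝ) (f : (E → Bool) → ℝ) (ω : E → Bool) : ℝ :=
  f ω + δ * ∑ e,
    (p * f (Function.update ω e true) + (1 - p) * f (Function.update ω e false) - f ω)

theorem sum_Q (p δ : ℝ) (f : (E → Bool) → ℝ) :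
    ∑ ω, bnu p ω * Q p δ f ω = ∑ ω, bnu p ω * f ω := by
  have h1 : ∀ ω, bnu p ω * Q p δ f ω = bnu p ω * f ω +
      δ * ∑ e, (bnu p ω * Rf p e f ω - bnu p ω * f ω) := by
    intro ω
    unfold Q Rf
    rw [mul_add, mul_left_comm, mul_sum (s := univ) (a := bnu p ω)]
    congr 2
    refine sum_congr rfl fun e _ => ?_
    ring
  simp_rw [h1]
  rw [sum_add_distrib, ← mul_sum, sum_comm]
  have h2 : ∀ e : E, ∑ ω, (bnu p ω * Rf p e f ω - bnu p ω * f ω) = 0 := by
    intro e
    rw [sum_sub_distrib, sum_Rf, sub_self]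
  simp_rw [h2]
  simp

theorem osc_Q (p δ : ℝ) (hp0 : 0 < p) (hp1 : p < 1) (hδ : 0 ≤ δ) (hδn : δ * Fintype.card E ≤ 1)
    (f : (E → Bool) → ℝ) (c : ℝ)
    (h : ∀ (e : E) (ω : E → Bool) (b : Bool), |f (Function.update ω e b) - f ω| ≤ c)
    (e : E) (ω : E → Bool) (b : Bool) :
    |Q p δ f (Function.update ω e b) - Q p δ f ω| ≤ (1 - δ) * c := by
  have h1 : Q p δ f (Function.update ω e b) - Q p δ f ω =
      (1 - δ * Fintype.card E) * (f (Function.update ω e b) - f ω) +
        δ * ∑ e' ∈ univ.erase e, (Rf p e' f (Function.update ω e b) - Rf p e' f ω) := by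
    have h2 : ∑ e' ∈ univ.erase e, (Rf p e' f (Function.update ω e b) - Rf p e' f ω) =
        ∑ e', (Rf p e' f (Function.update ω e b) - Rf p e' f ω) := by
      rw [← add_sum_erase univ _ (mem_univ e), Rf_update_self, sub_self, zero_add]
    rw [h2]
    unfold Q
    have h3 : ∀ ω' : E → Bool, ∑ e', (p * f (Function.update ω' e' true) +
        (1 - p) * f (Function.update ω' e' false) - f ω') =
        ∑ e', Rf p e' f ω' - Fintype.card E * f ω' := by
      intro ω'
      rw [sum_sub_distrib, sum_const, card_univ, nsmul_eq_mul]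
      rfl
    rw [h3, h3, sum_sub_distrib]
    ring
  have h4 : |∑ e' ∈ univ.erase e, (Rf p e' f (Function.update ω e b) - Rf p e' f ω)| ≤
      ((Fintype.card E : ℝ) - 1) * c := by
    refine (abs_sum_le_sum_abs _ _).trans ?_
    have h5 : ∀ e' ∈ univ.erase e, |Rf p e' f (Function.update ω e b) - Rf p e' f ω| ≤ c := by
      intro e' he'
      have hne : e ≠ e' := (ne_of_mem_erase he').symm
      rw [Rf_update_ne p hne]
      unfold Rf
      have h6 := h e (Function.update ω e' true) b
      have h7 := h e (Function.update ω e' false) b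
      have h8 : 0 ≤ 1 - p := by linarith
      rw [abs_le] at h6 h7 ⊢
      constructor <;> nlinarith
    refine (sum_le_card_nsmul _ _ _ h5).trans ?_
    rw [card_erase_of_mem (mem_univ e), card_univ, nsmul_eq_mul]
    have h6 : 1 ≤ Fintype.card E := Fintype.card_pos_iff.2 ⟨e⟩
    push_cast [h6]
    exact le_rfl
  rw [h1]
  have h5 : 0 ≤ 1 - δ * Fintype.card E := by linarith
  calc |(1 - δ * Fintype.card E) * (f (Function.update ω e b) - f ω) +
        δ * ∑ e' ∈ univ.erase e, (Rf p e' f (Function.update ω e b) - Rf p e' f ω)|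
      ≤ (1 - δ * Fintype.card E) * |f (Function.update ω e b) - f ω| +
        δ * |∑ e' ∈ univ.erase e, (Rf p e' f (Function.update ω e b) - Rf p e' f ω)| := by
        refine (abs_add_le _ _).trans ?_
        rw [abs_mul, abs_mul, abs_of_nonneg h5, abs_of_nonneg hδ]
    _ ≤ (1 - δ * Fintype.card E) * c + δ * (((Fintype.card E : ℝ) - 1) * c) :=
        add_le_add (mul_le_mul_of_nonneg_left (h e ω b) h5) (mul_le_mul_of_nonneg_left h4 hδ)
    _ = (1 - δ) * c := by ring

theorem main : S_MIX := by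
  intro E _ _ p δ f hp0 hp1 hδ hδn hf k ω
  have h1 : ∀ k : ℕ, ∀ (e : E) (ω : E → Bool) (b : Bool),
      |((Q p δ)^[k] f) (Function.update ω e b) - ((Q p δ)^[k] f) ω| ≤ (1 - δ) ^ k := by
    intro k
    induction k with
    | zero =>
      intro e ω b
      rw [Function.iterate_zero, id, pow_zero, abs_le]
      have h2 := hf (Function.update ω e b)
      have h3 := hf ω
      constructor <;> linarith [h2.1, h2.2, h3.1, h3.2]
    | succ k ih =>
      intro e ω b
      rw [Function.iterate_succ_apply', pow_succ']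
      exact osc_Q p δ hp0 hp1 hδ hδn _ _ ih e ω b
  have h2 : ∀ k : ℕ, ∑ ω, bnu p ω * ((Q p δ)^[k] f) ω = ∑ ω, bnu p ω * f ω := by
    intro k
    induction k with
    | zero => rfl
    | succ k ih =>
      rw [Function.iterate_succ_apply', sum_Q]
      exact ih
  have h3 : ((Q p δ)^[k] f) ω ≤ ∑ ω, bnu p ω * f ω + Fintype.card E * (1 - δ) ^ k := by
    rw [← h2 k]
    have h4 : ((Q p δ)^[k] f) ω - Fintype.card E * (1 - δ) ^ k ≤
        ∑ ω', bnu p ω' * ((Q p δ)^[k] f) ω' := by
      calc ((Q p δ)^[k] f) ω - Fintype.card E * (1 - δ) ^ k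
          = ∑ ω' : E → Bool, bnu p ω' * (((Q p δ)^[k] f) ω - Fintype.card E * (1 - δ) ^ k) := by
            rw [← sum_mul, bnu_sum, one_mul]
        _ ≤ _ := by
            refine sum_le_sum fun ω' _ => mul_le_mul_of_nonneg_left ?_ (bnu_nonneg p hp0 hp1 ω')
            have h5 := osc_all _ _ (h1 k) ω ω'
            have h6 := (abs_le.1 h5).1
            linarith
    linarith
  exact h3

end Pool.Agent.W880.CTMIX
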