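import Pool.Agent.W823.CT.Stm

/-! CT-PONE: the case `p = 1` by Fatou (MP_6504f0_pr). -/

set_option autoImplicit false

namespace Pool.Agent.W880.CTPONE

open Pool.Agent.W823.CT MeasureTheory Set Filter Topology
open scoped ENNReal

theorem gen_affine {V : Type} [Fintype V] [DecidableEq V] (G : SimpleGraph V) [DecidableRel G.Adj]
    (μ p : ℝ) : gen G μ p = gen G μ 0 + p • (gen G μ 1 - gen G μ 0) := by
  ext f s
  change genFun G μ p f s = genFun G μ 0 f s + p * (genFun G μ 1 f s - genFun G μ 0 f s)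
  unfold genFun
  set D := ∑ y : V, if h : G.Adj s.1 y then
        (if s.2.1 ⟨s(s.1, y), h⟩ = true then f (y, s.2.1, insert y s.2.2) - f s else 0) else 0
  have h1 : ∀ q : ℝ, ∑ e : G.edgeSet, (q * f (s.1, Function.update s.2.1 e true, s.2.2) +
      (1 - q) * f (s.1, Function.update s.2.1 e false, s.2.2) - f s) =
      q * ∑ e : G.edgeSet, f (s.1, Function.update s.2.1 e true, s.2.2) +
      (1 - q) * ∑ e : G.edgeSet, f (s.1, Function.update s.2.1 e false, s.2.2) -
        ∑ _e : G.edgeSet, f s := by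
    intro q
    rw [Finset.sum_sub_distrib, Finset.sum_add_distrib, Finset.mul_sum, Finset.mul_sum]
  rw [h1, h1, h1]
  ring

theorem main : S_PONE := by
  intro V _ _ G _ μ X hμ0 hμ1 hX h
  let _ : NormedAlgebra ℚ ((V × (G.edgeSet → Bool) × Finset V → ℝ) →L[ℝ]
    (V × (G.edgeSet → Bool) × Finset V → ℝ)) := NormedAlgebra.restrictScalars ℚ ℝ _
  -- continuity
  have hexp : Continuous (NormedSpace.exp : ((V × (G.edgeSet → Bool) × Finset V → ℝ) →L[ℝ]
    (V × (G.edgeSet → Bool) × Finset V → ℝ)) → _) := NormedSpace.exp_continuous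
  have hgen : Continuous (fun p : ℝ => gen G μ p) := by
    have : (fun p : ℝ => gen G μ p) = fun p => gen G μ 0 + p • (gen G μ 1 - gen G μ 0) := by
      funext p
      exact gen_affine G μ p
    rw [this]
    exact continuous_const.add (continuous_id.smul continuous_const)
  have hev : ∀ (g : V × (G.edgeSet → Bool) × Finset V → ℝ) (i : V × (G.edgeSet → Bool) × Finset V),
      Continuous (fun A : (V × (G.edgeSet → Bool) × Finset V → ℝ) →L[ℝ]
        (V × (G.edgeSet → Bool) × Finset V → ℝ) => A g i) := by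
    intro g i
    exact ((ContinuousLinearMap.proj (R := ℝ) i).comp
      (ContinuousLinearMap.apply ℝ (V × (G.edgeSet → Bool) × Finset V → ℝ) g)).continuous
  unfold Tdyn
  refine iSup_le fun v => iSup_le fun η => ?_
  set F : ℝ → ℝ → ℝ≥0∞ := fun p t => ENNReal.ofReal
    ((NormedSpace.exp (t • gen G μ p)) (fun s => nc s.2.2) (v, η, {v})) with hF
  have hFt : ∀ p, Measurable (F p) := by
    intro p
    apply ENNReal.measurable_ofReal.comp
    apply Continuous.measurable
    exact (hev _ _).comp (hexp.comp (continuous_id.smul continuous_const))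
  have hFp : ∀ t, Continuous (fun p => F p t) := by
    intro t
    apply ENNReal.continuous_ofReal.comp
    exact (hev _ _).comp (hexp.comp (hgen.const_smul t))
  -- the sequence
  set q : ℕ → ℝ := fun n => 1 - 1 / ((n : ℝ) + 2) with hq
  have hq0 : ∀ n, 0 < q n := by
    intro n
    have h1 : (0 : ℝ) < (n : ℝ) + 2 := by positivity
    have h2 : 1 / ((n : ℝ) + 2) < 1 := by
      rw [div_lt_one h1]
      have : (0 : ℝ) ≤ n := Nat.cast_nonneg n
      linarith
    rw [hq]
    simp only
    linarith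
  have hq1 : ∀ n, q n < 1 := by
    intro n
    have h1 : (0 : ℝ) < 1 / ((n : ℝ) + 2) := by positivity
    rw [hq]
    simp only
    linarith
  have hqlim : Tendsto q atTop (𝓝 1) := by
    have h1 : Tendsto (fun n : ℕ => 1 / ((n : ℝ) + 2)) atTop (𝓝 0) := by
      have h2 : Tendsto (fun n : ℕ => (n : ℝ) + 2) atTop atTop :=
        tendsto_atTop_add_const_right _ _ tendsto_natCast_atTop_atTop
      exact (tendsto_const_nhds.div_atTop h2)
    have h3 := h1.const_sub 1
    rwa [sub_zero] at h3
  have hlim : ∀ t, liminf (fun n => F (q n) t) atTop = F 1 t := by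
    intro t
    exact (((hFp t).tendsto 1).comp hqlim).liminf_eq
  have hfatou : ∫⁻ t in Ioi (0 : ℝ), F 1 t ≤
      liminf (fun n => ∫⁻ t in Ioi (0 : ℝ), F (q n) t) atTop := by
    calc ∫⁻ t in Ioi (0 : ℝ), F 1 t = ∫⁻ t in Ioi (0 : ℝ), liminf (fun n => F (q n) t) atTop := by
          simp_rw [hlim]
      _ ≤ _ := lintegral_liminf_le (fun n => hFt (q n))
  refine hfatou.trans ?_
  have hb : ∀ n, ∫⁻ t in Ioi (0 : ℝ), F (q n) t ≤ ENNReal.ofReal (X / q n) := by
    intro n
    refine le_trans ?_ (h (q n) (hq0 n) (hq1 n))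
    unfold Tdyn
    exact le_iSup_of_le v (le_iSup (fun η => ∫⁻ t in Ioi (0 : ℝ), ENNReal.ofReal
      ((NormedSpace.exp (t • gen G μ (q n))) (fun s => nc s.2.2) (v, η, {v}))) η)
  have hlimX : Tendsto (fun n => ENNReal.ofReal (X / q n)) atTop (𝓝 (ENNReal.ofReal X)) := by
    apply ENNReal.tendsto_ofReal
    have h1 : Tendsto (fun n => X / q n) atTop (𝓝 (X / 1)) :=
      tendsto_const_nhds.div hqlim one_ne_zero
    rwa [div_one] at h1
  rw [← hlimX.liminf_eq]
  exact liminf_le_liminf (Eventually.of_forall hb)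

end Pool.Agent.W880.CTPONE
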