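import Pool.Agent.W823.CT.Stm

/-! CT-TWO: comparison across one edge (MP_6504f0_pr). -/

set_option autoImplicit false

namespace Pool.Agent.W880.CT

open Pool.Agent.W823.CT Finset

variable {E : Type} [Fintype E] [DecidableEq E]

/-- the weight of all coordinates but `e` -/
noncomputable def rest (p : ℝ) (e : E) (ω : E → Bool) : ℝ :=
  ∏ x ∈ univ.erase e, if ω x = true then p else 1 - p

theorem bnu_update (p : ℝ) (e : E) (b : Bool) (ω : E → Bool) :
    bnu p (Function.update ω e b) = (if b = true then p else 1 - p) * rest p e ω := by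
  unfold bnu rest
  rw [← mul_prod_erase univ _ (mem_univ e), Function.update_self]
  congr 1
  refine prod_congr rfl fun x hx => ?_
  rw [Function.update_of_ne (ne_of_mem_erase hx)]

/-- pairing of `ω` with its flip at `e` -/
theorem half (e : E) (H : (E → Bool) → ℝ) :
    ∑ ω : E → Bool, (H (Function.update ω e true) + H (Function.update ω e false)) =
      2 * ∑ ω, H ω := by
  have h1 : ∀ ω : E → Bool, H (Function.update ω e true) + H (Function.update ω e false) =
      H ω + H (Function.update ω e (!ω e)) := by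
    intro ω
    cases h : ω e
    · have : Function.update ω e false = ω := by rw [← h, Function.update_eq_self]
      rw [this, Bool.not_false, add_comm]
    · have : Function.update ω e true = ω := by rw [← h, Function.update_eq_self]
      rw [this, Bool.not_true]
  simp_rw [h1]
  rw [sum_add_distrib, two_mul]
  congr 1
  have hinv : Function.Involutive (fun ω : E → Bool => Function.update ω e (!ω e)) := by
    intro ω
    simp
  exact Equiv.sum_comp hinv.toPerm H

/-- refreshing the edge `e` -/
theorem refresh (p : ℝ) (e : E) (F : (E → Bool) → ℝ) :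
    ∑ ω, bnu p ω * F ω =
      ∑ ω, bnu p ω * (p * F (Function.update ω e true) + (1 - p) * F (Function.update ω e false)) := by
  have h1 := half e (fun ω => bnu p ω * F ω)
  have h2 := half e (fun ω => bnu p ω *
    (p * F (Function.update ω e true) + (1 - p) * F (Function.update ω e false)))
  have h3 : ∀ ω : E → Bool,
      bnu p (Function.update ω e true) * F (Function.update ω e true) +
        bnu p (Function.update ω e false) * F (Function.update ω e false) =
      bnu p (Function.update ω e true) *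
        (p * F (Function.update (Function.update ω e true) e true) +
          (1 - p) * F (Function.update (Function.update ω e true) e false)) +
        bnu p (Function.update ω e false) *
        (p * F (Function.update (Function.update ω e false) e true) +
          (1 - p) * F (Function.update (Function.update ω e false) e false)) := by
    intro ω
    simp only [Function.update_idem]
    rw [bnu_update, bnu_update]
    simp only [if_true, Bool.false_eq_true, if_false]
    ring
  simp only [h3] at h1
  linarith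

omit [DecidableEq E] in
theorem bnu_nonneg (p : ℝ) (hp0 : 0 < p) (hp1 : p < 1) (ω : E → Bool) : 0 ≤ bnu p ω := by
  unfold bnu
  refine prod_nonneg fun x _ => ?_
  split_ifs <;> linarith

omit [Fintype E] [DecidableEq E] in
theorem pointwise (p μ a1 a0 b1 b0 : ℝ) (hp0 : 0 < p) (hp1 : p < 1) (hμ0 : 0 < μ) (hμ1 : μ ≤ 1) :
    μ * p / 3 * (p * (a1 - b1) ^ 2 + (1 - p) * (a0 - b0) ^ 2) ≤
      p * (a1 - b1) ^ 2 + μ * (p * (1 - p) * (a1 - a0) ^ 2) + μ * (p * (1 - p) * (b1 - b0) ^ 2) := by
  have h1 : (a0 - b0) ^ 2 ≤ 3 * ((a1 - a0) ^ 2 + (a1 - b1) ^ 2 + (b1 - b0) ^ 2) := by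
    nlinarith [sq_nonneg ((a0 - a1) - (a1 - b1)), sq_nonneg ((a1 - b1) - (b1 - b0)),
      sq_nonneg ((a0 - a1) - (b1 - b0))]
  have h2 : 0 ≤ μ * p / 3 * (1 - p) := by
    have : 0 ≤ 1 - p := by linarith
    positivity
  have h3 := mul_le_mul_of_nonneg_left h1 h2
  have h4 : μ * p / 3 * p * (a1 - b1) ^ 2 + μ * p / 3 * (1 - p) * (3 * (a1 - b1) ^ 2) ≤
      p * (a1 - b1) ^ 2 := by
    have h5 : μ * p / 3 * p + μ * p / 3 * (1 - p) * 3 ≤ p := by
      have h6 : μ * p / 3 * p + μ * p / 3 * (1 - p) * 3 = p * (μ * (3 - 2 * p) / 3) := by ring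
      rw [h6]
      have h7 : μ * (3 - 2 * p) / 3 ≤ 1 := by nlinarith
      nlinarith
    have := mul_le_mul_of_nonneg_right h5 (sq_nonneg (a1 - b1))
    linarith
  nlinarith

theorem main : S_TWO := by
  intro E _ _ p μ g h e hp0 hp1 hμ0 hμ1
  have hν := bnu_nonneg (E := E) p hp0 hp1
  -- the right side
  have hA : ∑ ω, bnu p ω * (if ω e = true then (g ω - h ω) ^ 2 else 0) =
      ∑ ω, bnu p ω * (p * (g (Function.update ω e true) - h (Function.update ω e true)) ^ 2) := by
    rw [refresh p e]
    refine sum_congr rfl fun ω _ => ?_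
    simp
  have hB : ∑ ω, bnu p ω * (g ω - h ω) ^ 2 =
      ∑ ω, bnu p ω * (p * (g (Function.update ω e true) - h (Function.update ω e true)) ^ 2 +
        (1 - p) * (g (Function.update ω e false) - h (Function.update ω e false)) ^ 2) :=
    refresh p e _
  have h1 : μ * p / 3 * ∑ ω, bnu p ω * (g ω - h ω) ^ 2 ≤
      ∑ ω, bnu p ω * (if ω e = true then (g ω - h ω) ^ 2 else 0) +
      μ * ∑ ω, bnu p ω * (p * (1 - p) * (g (Function.update ω e true) - g (Function.update ω e false)) ^ 2) +
      μ * ∑ ω, bnu p ω * (p * (1 - p) * (h (Function.update ω e true) - h (Function.update ω e false)) ^ 2) := by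
    rw [hA, hB, mul_sum, mul_sum, mul_sum, ← sum_add_distrib, ← sum_add_distrib]
    refine sum_le_sum fun ω _ => ?_
    have h2 := mul_le_mul_of_nonneg_left (pointwise p μ (g (Function.update ω e true))
      (g (Function.update ω e false)) (h (Function.update ω e true))
      (h (Function.update ω e false)) hp0 hp1 hμ0 hμ1) (hν ω)
    linarith
  -- the triangle inequality
  have h2 : (√(∑ ω, bnu p ω * g ω ^ 2) - √(∑ ω, bnu p ω * h ω ^ 2)) ^ 2 ≤
      ∑ ω, bnu p ω * (g ω - h ω) ^ 2 := by
    set A := ∑ ω, bnu p ω * g ω ^ 2 with hA'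
    set B := ∑ ω, bnu p ω * h ω ^ 2 with hB'
    have hA0 : 0 ≤ A := sum_nonneg fun ω _ => mul_nonneg (hν ω) (sq_nonneg _)
    have hB0 : 0 ≤ B := sum_nonneg fun ω _ => mul_nonneg (hν ω) (sq_nonneg _)
    have hcs : (∑ ω, bnu p ω * (g ω * h ω)) ^ 2 ≤ A * B := by
      have h3 := sum_mul_sq_le_sq_mul_sq univ (fun ω => √(bnu p ω) * g ω)
        (fun ω => √(bnu p ω) * h ω)
      have e1 : ∀ ω, √(bnu p ω) * g ω * (√(bnu p ω) * h ω) = bnu p ω * (g ω * h ω) := by
        intro ω
        have := Real.mul_self_sqrt (hν ω)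
        linear_combination (g ω * h ω) * this
      have e2 : ∀ f : (E → Bool) → ℝ, ∀ ω, (√(bnu p ω) * f ω) ^ 2 = bnu p ω * f ω ^ 2 := by
        intro f ω
        rw [mul_pow, Real.sq_sqrt (hν ω)]
      simp only [e1, e2] at h3
      exact h3
    have h4 : ∑ ω, bnu p ω * (g ω * h ω) ≤ √A * √B := by
      rw [← Real.sqrt_mul hA0]
      exact Real.le_sqrt_of_sq_le hcs
    have h5 : ∑ ω, bnu p ω * (g ω - h ω) ^ 2 = A + B - 2 * ∑ ω, bnu p ω * (g ω * h ω) := by
      rw [hA', hB', mul_sum, ← sum_add_distrib, ← sum_sub_distrib]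
      refine sum_congr rfl fun ω _ => ?_
      ring
    rw [h5, sub_sq, Real.sq_sqrt hA0, Real.sq_sqrt hB0]
    linarith
  have h3 : 0 ≤ μ * p / 3 := by positivity
  exact (mul_le_mul_of_nonneg_left h2 h3).trans h1

end Pool.Agent.W880.CT
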