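import Pool.Agent.W880.CT.CTTWO

/-! Bernoulli product weights: refreshing coordinates, oscillations (MP_6504f0_pr). -/

set_option autoImplicit false

namespace Pool.Agent.W880.CT

open Pool.Agent.W823.CT Finset

variable {E : Type} [Fintype E] [DecidableEq E]

/-- total mass -/
theorem bnu_sum (p : ℝ) : ∑ ω : E → Bool, bnu p ω = 1 := by
  unfold bnu
  have h := Finset.prod_univ_sum (fun _ : E => (univ : Finset Bool))
    (fun (_ : E) (b : Bool) => if b = true then p else 1 - p)
  rw [Fintype.piFinset_univ] at h
  rw [← h]
  simp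

/-- refreshing one coordinate -/
noncomputable def Rf (p : ℝ) (e : E) (f : (E → Bool) → ℝ) (ω : E → Bool) : ℝ :=
  p * f (Function.update ω e true) + (1 - p) * f (Function.update ω e false)

theorem sum_Rf (p : ℝ) (e : E) (f : (E → Bool) → ℝ) :
    ∑ ω, bnu p ω * Rf p e f ω = ∑ ω, bnu p ω * f ω := (refresh p e f).symm

omit [Fintype E] in
theorem Rf_update_self (p : ℝ) (e : E) (f : (E → Bool) → ℝ) (ω : E → Bool) (b : Bool) :
    Rf p e f (Function.update ω e b) = Rf p e f ω := by
  unfold Rf
  simp only [Function.update_idem]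

omit [Fintype E] in
theorem Rf_update_ne (p : ℝ) {e e' : E} (h : e' ≠ e) (f : (E → Bool) → ℝ) (ω : E → Bool) (b : Bool) :
    Rf p e f (Function.update ω e' b) =
      p * f (Function.update (Function.update ω e true) e' b) +
        (1 - p) * f (Function.update (Function.update ω e false) e' b) := by
  unfold Rf
  rw [Function.update_comm h.symm, Function.update_comm h.symm]

omit [Fintype E] in
/-- changing several coordinates -/
theorem osc_piecewise (f : (E → Bool) → ℝ) (c : ℝ)
    (h : ∀ (e : E) (ω : E → Bool) (b : Bool), |f (Function.update ω e b) - f ω| ≤ c)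
    (ω ω' : E → Bool) (s : Finset E) : |f (s.piecewise ω' ω) - f ω| ≤ s.card * c := by
  induction s using Finset.induction_on with
  | empty => simp
  | insert j s hj ih =>
    rw [piecewise_insert, card_insert_of_notMem hj]
    have h1 := h j (s.piecewise ω' ω) (ω' j)
    push_cast
    calc |f (Function.update (s.piecewise ω' ω) j (ω' j)) - f ω|
        ≤ |f (Function.update (s.piecewise ω' ω) j (ω' j)) - f (s.piecewise ω' ω)| +
          |f (s.piecewise ω' ω) - f ω| := abs_sub_le _ _ _
      _ ≤ (s.card + 1) * c := by linarith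

theorem osc_all (f : (E → Bool) → ℝ) (c : ℝ)
    (h : ∀ (e : E) (ω : E → Bool) (b : Bool), |f (Function.update ω e b) - f ω| ≤ c)
    (ω ω' : E → Bool) : |f ω' - f ω| ≤ Fintype.card E * c := by
  have h1 := osc_piecewise f c h ω ω' univ
  rwa [piecewise_univ, card_univ] at h1

end Pool.Agent.W880.CT
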