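import Pool.Agent.W823.CT.Stm

/-! CT-UNIF: time integral of a finite dimensional positive semigroup (MP_6504f0_pr). -/

set_option autoImplicit false

namespace Pool.Agent.W880.CTUNIF

open Pool.Agent.W823.CT MeasureTheory Set
open scoped ENNReal Nat

variable {ι : Type} [Fintype ι]

/-- the time integral of a Poisson weight -/
theorem lintegral_weight (Λ c : ℝ) (hΛ : 0 < Λ) (hc : 0 ≤ c) (k : ℕ) :
    ∫⁻ t in Ioi (0 : ℝ), ENNReal.ofReal (Real.exp (-(t * Λ)) * ((k ! : ℝ)⁻¹ * (t * Λ) ^ k * c)) =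
      ENNReal.ofReal (Λ⁻¹ * c) := by
  have h0 : (0 : ℝ) < k ! := by positivity
  have h1 : ∫ t in Ioi (0 : ℝ), t ^ k * Real.exp (-(Λ * t)) = (1 / Λ) ^ (k + 1) * k ! := by
    have h2 := Real.integral_rpow_mul_exp_neg_mul_Ioi (a := (k : ℝ) + 1) (by positivity) hΛ
    rw [add_sub_cancel_right, Real.Gamma_nat_eq_factorial] at h2
    have h3 : (1 / Λ) ^ ((k : ℝ) + 1) = (1 / Λ) ^ (k + 1) := by
      rw [← Real.rpow_natCast]
      push_cast
      rfl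
    rw [h3] at h2
    rw [← h2]
    refine setIntegral_congr_fun measurableSet_Ioi fun t _ => ?_
    simp only [Real.rpow_natCast]
  have hint1 : IntegrableOn (fun t : ℝ => t ^ k * Real.exp (-(Λ * t))) (Ioi 0) := by
    by_contra hcon
    have h2 := integral_undef hcon
    rw [h1] at h2
    have : 0 < (1 / Λ) ^ (k + 1) * (k ! : ℝ) := by positivity
    linarith
  have heq : ∀ t : ℝ, Real.exp (-(t * Λ)) * ((k ! : ℝ)⁻¹ * (t * Λ) ^ k * c) =
      ((k ! : ℝ)⁻¹ * Λ ^ k * c) * (t ^ k * Real.exp (-(Λ * t))) := by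
    intro t
    rw [mul_pow, mul_comm Λ t]
    ring
  simp_rw [heq]
  rw [← ofReal_integral_eq_lintegral_ofReal (hint1.const_mul _)]
  · rw [integral_const_mul, h1]
    congr 1
    rw [one_div, inv_pow, pow_succ]
    have hΛ' := hΛ.ne'
    field_simp
  · rw [Filter.EventuallyLE, ae_restrict_iff' measurableSet_Ioi]
    refine Filter.Eventually.of_forall fun t ht => ?_
    have ht0 : (0 : ℝ) < t := ht
    simp only [Pi.zero_apply]
    positivity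

/-- the uniformised operator -/
noncomputable def Qo (L : (ι → ℝ) →L[ℝ] (ι → ℝ)) (Λ : ℝ) : (ι → ℝ) →L[ℝ] (ι → ℝ) := 1 + Λ⁻¹ • L

omit [Fintype ι] in
theorem iter_eq (L : (ι → ℝ) →L[ℝ] (ι → ℝ)) (Λ : ℝ) (g : ι → ℝ) (k : ℕ) :
    (fun (f : ι → ℝ) (i : ι) => f i + Λ⁻¹ * L f i)^[k] g = ((Qo L Λ) ^ k) g := by
  induction k with
  | zero => simp
  | succ k ih =>
    rw [Function.iterate_succ_apply', ih, pow_succ']
    funext i
    simp [Qo]

omit [Fintype ι] in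
theorem iter_nonneg (L : (ι → ℝ) →L[ℝ] (ι → ℝ)) (Λ : ℝ)
    (hL : ∀ f : ι → ℝ, (∀ i, 0 ≤ f i) → ∀ i, 0 ≤ f i + Λ⁻¹ * L f i) (g : ι → ℝ)
    (hg : ∀ i, 0 ≤ g i) (k : ℕ) :
    ∀ i, 0 ≤ ((fun (f : ι → ℝ) (i : ι) => f i + Λ⁻¹ * L f i)^[k] g) i := by
  induction k with
  | zero => exact hg
  | succ k ih =>
    rw [Function.iterate_succ_apply']
    exact hL _ ih

theorem hasSum_exp (L : (ι → ℝ) →L[ℝ] (ι → ℝ)) (Λ : ℝ) (hΛ : 0 < Λ) (g : ι → ℝ) (i : ι) (t : ℝ) :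
    HasSum (fun k : ℕ => Real.exp (-(t * Λ)) * ((k ! : ℝ)⁻¹ * (t * Λ) ^ k *
      ((fun (f : ι → ℝ) (i : ι) => f i + Λ⁻¹ * L f i)^[k] g) i))
      ((NormedSpace.exp (t • L)) g i) := by
  let _ : NormedAlgebra ℚ ((ι → ℝ) →L[ℝ] (ι → ℝ)) := NormedAlgebra.restrictScalars ℚ ℝ _
  have h1 : t • L = algebraMap ℝ ((ι → ℝ) →L[ℝ] (ι → ℝ)) (-(t * Λ)) + (t * Λ) • Qo L Λ := by
    ext f j
    simp only [Qo, Algebra.algebraMap_eq_smul_one]
    simp
    field_simp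
  have hcomm : Commute (algebraMap ℝ ((ι → ℝ) →L[ℝ] (ι → ℝ)) (-(t * Λ))) ((t * Λ) • Qo L Λ) :=
    Algebra.commutes _ _
  have h2 : NormedSpace.exp (t • L) =
      Real.exp (-(t * Λ)) • NormedSpace.exp ((t * Λ) • Qo L Λ) := by
    rw [h1, NormedSpace.exp_add_of_commute hcomm, ← NormedSpace.algebraMap_exp_comm,
      Algebra.algebraMap_eq_smul_one, smul_mul_assoc, one_mul, Real.exp_eq_exp_ℝ]
  rw [h2]
  let ev : ((ι → ℝ) →L[ℝ] (ι → ℝ)) →L[ℝ] ℝ :=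
    (ContinuousLinearMap.proj (R := ℝ) i).comp
      (ContinuousLinearMap.apply ℝ (ι → ℝ) g)
  have h3 := ev.hasSum (NormedSpace.exp_series_hasSum_exp' (𝕂 := ℝ) ((t * Λ) • Qo L Λ))
  have h4 := h3.mul_left (Real.exp (-(t * Λ)))
  have h5 : Real.exp (-(t * Λ)) * ev (NormedSpace.exp ((t * Λ) • Qo L Λ)) =
      (Real.exp (-(t * Λ)) • NormedSpace.exp ((t * Λ) • Qo L Λ)) g i := rfl
  rw [h5] at h4
  have h6 : (fun k : ℕ => Real.exp (-(t * Λ)) * ((k ! : ℝ)⁻¹ * (t * Λ) ^ k *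
      ((fun (f : ι → ℝ) (i : ι) => f i + Λ⁻¹ * L f i)^[k] g) i)) =
      fun k => Real.exp (-(t * Λ)) * ev ((k ! : ℝ)⁻¹ • ((t * Λ) • Qo L Λ) ^ k) := by
    funext k
    rw [iter_eq, smul_pow]
    simp [ev]
    ring
  rw [h6]
  exact h4

theorem main : S_UNIF := by
  intro ι _ L Λ hΛ hL g hg i
  have hc := iter_nonneg L Λ hL g hg
  have h1 : ∀ t ∈ Ioi (0 : ℝ), ENNReal.ofReal ((NormedSpace.exp (t • L)) g i) =
      ∑' k : ℕ, ENNReal.ofReal (Real.exp (-(t * Λ)) * ((k ! : ℝ)⁻¹ * (t * Λ) ^ k *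
      ((fun (f : ι → ℝ) (i : ι) => f i + Λ⁻¹ * L f i)^[k] g) i)) := by
    intro t ht
    have ht0 : (0 : ℝ) < t := ht
    have h2 := hasSum_exp L Λ hΛ g i t
    rw [← h2.tsum_eq, ENNReal.ofReal_tsum_of_nonneg _ h2.summable]
    intro k
    have := hc k i
    positivity
  rw [setLIntegral_congr_fun measurableSet_Ioi h1, lintegral_tsum]
  · refine tsum_congr fun k => ?_
    exact lintegral_weight Λ _ hΛ (hc k i) k
  · intro k
    apply Measurable.aemeasurable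
    apply ENNReal.measurable_ofReal.comp
    apply Continuous.measurable
    fun_prop

end Pool.Agent.W880.CTUNIF
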